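import Pool.Agent.P8H60.NR.Stm

/-!
# Project NR, package B: the set `FK D K` has small Gaussian measure
-/

set_option autoImplicit false

namespace Pool.Agent.P8H56.NR

open Finset MeasureTheory ProbabilityTheory Pool.Agent.P8H60.NR

/-- A standard Gaussian variable is in a given interval of length `1 / 2` with probability at most
`1 / 4`. -/
theorem gauss_window (a c : ℝ) (ha : |a| = 1) :
    gaussianReal 0 1 {u : ℝ | |a * u + c| ≤ 1 / 4} ≤ 1 / 4 := by
  have h1 : {u : ℝ | |a * u + c| ≤ 1 / 4} ⊆ Set.Icc (-(a * c) - 1 / 4) (-(a * c) + 1 / 4) := by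
    intro u hu
    change |a * u + c| ≤ 1 / 4 at hu
    rcases (abs_eq (zero_le_one' ℝ)).1 ha with rfl | rfl
    · rw [abs_le] at hu
      constructor <;> linarith [hu.1, hu.2]
    · rw [abs_le] at hu
      constructor <;> linarith [hu.1, hu.2]
  have h2 : ∀ x : ℝ, gaussianPDF 0 1 x ≤ ENNReal.ofReal (1 / 2) := by
    intro x
    unfold gaussianPDF
    apply ENNReal.ofReal_le_ofReal
    rw [gaussianPDFReal_def]
    simp only [NNReal.coe_one, mul_one, sub_zero]
    have h3 : Real.exp (-x ^ 2 / 2) ≤ 1 := by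
      rw [Real.exp_le_one_iff]
      have := sq_nonneg x
      linarith
    have h4 : (2 : ℝ) ≤ √(2 * Real.pi) := by
      apply Real.le_sqrt_of_sq_le
      have := Real.pi_gt_three
      nlinarith
    have h5 : (√(2 * Real.pi))⁻¹ ≤ 1 / 2 := by
      rw [one_div]
      exact inv_anti₀ (by norm_num) h4
    calc (√(2 * Real.pi))⁻¹ * Real.exp (-x ^ 2 / 2) ≤ 1 / 2 * 1 :=
          mul_le_mul h5 h3 (Real.exp_pos _).le (by norm_num)
      _ = 1 / 2 := mul_one _
  calc gaussianReal 0 1 {u : ℝ | |a * u + c| ≤ 1 / 4}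
      ≤ gaussianReal 0 1 (Set.Icc (-(a * c) - 1 / 4) (-(a * c) + 1 / 4)) := measure_mono h1
    _ = ∫⁻ x in Set.Icc (-(a * c) - 1 / 4) (-(a * c) + 1 / 4), gaussianPDF 0 1 x :=
        gaussianReal_apply 0 one_ne_zero _
    _ ≤ ∫⁻ _ in Set.Icc (-(a * c) - 1 / 4) (-(a * c) + 1 / 4), ENNReal.ofReal (1 / 2) :=
        lintegral_mono fun x => h2 x
    _ = ENNReal.ofReal (1 / 2) * ENNReal.ofReal (1 / 2) := by
        rw [setLIntegral_const, Real.volume_Icc]
        congr 2
        ring
    _ = 1 / 4 := by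
        rw [← ENNReal.ofReal_mul (by norm_num), show (1 / 2 : ℝ) * (1 / 2) = (4 : ℝ)⁻¹ by norm_num,
          ENNReal.ofReal_inv_of_pos (by norm_num)]
        norm_num

/-- The windows `(D + 1) m, ..., (D + 1) m + D`. -/
def win (D K M : ℕ) (w : ℕ → ℝ) : Set (Fin K → ℝ) :=
  {z | ∀ m < M, |∑ i ∈ range (D + 1), w i * ex z ((D + 1) * m + i)| ≤ 1 / 4}

theorem measurable_ex {K : ℕ} (m : ℕ) : Measurable fun z : Fin K → ℝ => ex z m := by
  unfold ex
  split_ifs with h
  · exact measurable_pi_apply _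
  · exact measurable_const

theorem measurableSet_win (D K M : ℕ) (w : ℕ → ℝ) : MeasurableSet (win D K M w) := by
  have h1 : win D K M w = ⋂ m ∈ Set.Iio M,
      {z | |∑ i ∈ range (D + 1), w i * ex z ((D + 1) * m + i)| ≤ 1 / 4} := by
    ext z
    simp [win]
  rw [h1]
  refine MeasurableSet.biInter (Set.to_countable _) fun m _ => ?_
  apply measurableSet_le _ measurable_const
  exact (Finset.measurable_sum _ fun i _ => (measurable_ex _).const_mul _).abs

theorem window_unique {D m m' i i' : ℕ} (hi : i ≤ D) (hi' : i' ≤ D)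
    (h : (D + 1) * m + i = (D + 1) * m' + i') : i = i' := by
  have h1 : ((D + 1) * m + i) % (D + 1) = i := by
    rw [Nat.mul_add_mod]
    exact Nat.mod_eq_of_lt (by omega)
  have h2 : ((D + 1) * m' + i') % (D + 1) = i' := by
    rw [Nat.mul_add_mod]
    exact Nat.mod_eq_of_lt (by omega)
  rw [← h1, ← h2, h]

theorem window_unique' {D m m' i i' : ℕ} (hi : i ≤ D) (hi' : i' ≤ D)
    (h : (D + 1) * m + i = (D + 1) * m' + i') : m = m' := by
  have h1 := window_unique hi hi' h
  subst h1
  have h2 : (D + 1) * m = (D + 1) * m' := by omega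
  exact Nat.eq_of_mul_eq_mul_left (Nat.succ_pos D) h2

/-- The measure of the set of the vectors all of whose windows are small. -/
theorem measure_win (D K M : ℕ) (hM : (D + 1) * M ≤ K) (w : ℕ → ℝ) (i0 : ℕ) (hi0 : i0 ≤ D)
    (hw : |w i0| = 1) :
    (Measure.pi fun _ : Fin K => gaussianReal 0 1) (win D K M w) ≤ (1 / 4) ^ M := by
  classical
  set p : Fin K → Prop := fun k => ∃ m < M, (k : ℕ) = (D + 1) * m + i0 with hp
  have hmp := measurePreserving_piEquivPiSubtypeProd (fun _ : Fin K => gaussianReal 0 1) p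
  set e := MeasurableEquiv.piEquivPiSubtypeProd (fun _ : Fin K => ℝ) p with he
  set s : Set ((∀ _ : Subtype p, ℝ) × (∀ _ : {i // ¬ p i}, ℝ)) := e.symm ⁻¹' (win D K M w) with hs
  have hsm : MeasurableSet s := e.symm.measurable (measurableSet_win D K M w)
  have h1 : (Measure.pi fun _ : Fin K => gaussianReal 0 1) (win D K M w) =
      ((Measure.pi fun _ : Subtype p => gaussianReal 0 1).prod
        (Measure.pi fun _ : {i // ¬ p i} => gaussianReal 0 1)) s := by
    rw [← hmp.measure_preimage hsm.nullMeasurableSet]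
    congr 1
    ext z
    simp [hs]
  have hlt : ∀ m < M, (D + 1) * m + i0 < K := by
    intro m hm
    have h2 : (D + 1) * m + (D + 1) ≤ (D + 1) * M := by
      calc (D + 1) * m + (D + 1) = (D + 1) * (m + 1) := by ring
        _ ≤ (D + 1) * M := Nat.mul_le_mul_left _ hm
    omega
  have hcard : M ≤ Fintype.card (Subtype p) := by
    have h2 : Function.Injective fun m : Fin M =>
        (⟨⟨(D + 1) * m + i0, hlt m m.2⟩, ⟨m, m.2, rfl⟩⟩ : Subtype p) := by
      intro m m' h
      simp only [Subtype.mk.injEq, Fin.mk.injEq] at h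
      exact Fin.ext (window_unique' hi0 hi0 h)
    simpa using Fintype.card_le_of_injective _ h2
  -- each slice
  have hslice : ∀ y : (∀ _ : {i // ¬ p i}, ℝ),
      (Measure.pi fun _ : Subtype p => gaussianReal 0 1) ((fun x => (x, y)) ⁻¹' s) ≤
        (1 / 4) ^ M := by
    intro y
    set z0 : Fin K → ℝ := e.symm (0, y) with hz0
    have hex : ∀ (x : ∀ _ : Subtype p, ℝ) (k : ℕ), (∀ m < M, k ≠ (D + 1) * m + i0) →
        ex (e.symm (x, y)) k = ex z0 k := by
      intro x k hk
      unfold ex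
      split_ifs with h
      · have hnp : ¬ p ⟨k, h⟩ := by
          rintro ⟨m, hm, hkm⟩
          exact hk m hm hkm
        rw [hz0, he]
        simp only [MeasurableEquiv.piEquivPiSubtypeProd_symm_apply]
        rw [dif_neg hnp, dif_neg hnp]
      · rfl
    have hsub : ((fun x => (x, y)) ⁻¹' s) ⊆ Set.pi Set.univ fun t : Subtype p =>
        {u : ℝ | |w i0 * u + ∑ i ∈ (range (D + 1)).erase i0,
          w i * ex z0 ((t : Fin K) - i0 + i)| ≤ 1 / 4} := by
      intro x hx
      rintro ⟨t, m, hm, ht⟩ -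
      have hx' : ∀ m < M, |∑ i ∈ range (D + 1),
          w i * ex (e.symm (x, y)) ((D + 1) * m + i)| ≤ 1 / 4 := hx
      have hx2 := hx' m hm
      rw [← Finset.add_sum_erase _ _ (Finset.mem_range.2 (Nat.lt_succ_of_le hi0))] at hx2
      have h3 : ex (e.symm (x, y)) ((D + 1) * m + i0) = x ⟨t, m, hm, ht⟩ := by
        unfold ex
        rw [dif_pos (hlt m hm), he]
        have h4 : (⟨(D + 1) * m + i0, hlt m hm⟩ : Fin K) = t := Fin.ext ht.symm
        rw [h4]
        simp only [MeasurableEquiv.piEquivPiSubtypeProd_symm_apply]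
        rw [dif_pos (show p t from ⟨m, hm, ht⟩)]
      rw [h3] at hx2
      have h5 : ∑ i ∈ (range (D + 1)).erase i0, w i * ex (e.symm (x, y)) ((D + 1) * m + i) =
          ∑ i ∈ (range (D + 1)).erase i0, w i * ex z0 ((t : ℕ) - i0 + i) := by
        refine Finset.sum_congr rfl fun i hi => ?_
        rw [Finset.mem_erase, Finset.mem_range] at hi
        rw [ht, Nat.add_sub_cancel, hex]
        intro m' _ h
        exact hi.1 (window_unique (by omega) hi0 h)
      rw [h5] at hx2
      exact hx2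
    calc (Measure.pi fun _ : Subtype p => gaussianReal 0 1) ((fun x => (x, y)) ⁻¹' s)
        ≤ (Measure.pi fun _ : Subtype p => gaussianReal 0 1) (Set.pi Set.univ
          fun t : Subtype p => {u : ℝ | |w i0 * u + ∑ i ∈ (range (D + 1)).erase i0,
          w i * ex z0 ((t : Fin K) - i0 + i)| ≤ 1 / 4}) := measure_mono hsub
      _ = ∏ t : Subtype p, gaussianReal 0 1 {u : ℝ | |w i0 * u +
          ∑ i ∈ (range (D + 1)).erase i0, w i * ex z0 ((t : Fin K) - i0 + i)| ≤ 1 / 4} :=
          Measure.pi_pi _ _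
      _ ≤ ∏ _t : Subtype p, (1 / 4) := Finset.prod_le_prod' fun t _ => gauss_window _ _ hw
      _ = (1 / 4) ^ Fintype.card (Subtype p) := by simp
      _ ≤ (1 / 4) ^ M := by
          apply pow_le_pow_right_of_le_one' _ hcard
          simp
  rw [h1, Measure.prod_apply_symm hsm]
  calc ∫⁻ y, (Measure.pi fun _ : Subtype p => gaussianReal 0 1) ((fun x => (x, y)) ⁻¹' s)
        ∂(Measure.pi fun _ : {i // ¬ p i} => gaussianReal 0 1)
      ≤ ∫⁻ _y, (1 / 4) ^ M ∂(Measure.pi fun _ : {i // ¬ p i} => gaussianReal 0 1) :=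
        lintegral_mono hslice
    _ = (1 / 4) ^ M := by simp

/-- A coordinate is larger than `K` with probability at most `1 / K ^ 2`. -/
theorem measure_tail {K : ℕ} (hK : 1 ≤ K) (j : Fin K) :
    (Measure.pi fun _ : Fin K => gaussianReal 0 1) {z | (K : ℝ) < |z j|} ≤
      ENNReal.ofReal (1 / (K : ℝ) ^ 2) := by
  have h0 : (0 : ℝ) < K := by exact_mod_cast hK
  have h1 := (measurePreserving_eval (fun _ : Fin K => gaussianReal 0 1) j).measure_preimage
    (s := {x : ℝ | (K : ℝ) < |x|})
    (measurableSet_lt measurable_const measurable_id.abs).nullMeasurableSet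
  have h2 : (Measure.pi fun _ : Fin K => gaussianReal 0 1) {z | (K : ℝ) < |z j|} =
      gaussianReal 0 1 {x : ℝ | (K : ℝ) < |x|} := h1
  rw [h2]
  have h3 := meas_ge_le_variance_div_sq (μ := gaussianReal 0 1) (X := (id : ℝ → ℝ))
    (memLp_id_gaussianReal 2) h0
  rw [variance_id_gaussianReal] at h3
  simp only [id_eq, integral_id_gaussianReal, sub_zero, NNReal.coe_one] at h3
  refine le_trans (measure_mono fun x hx => ?_) h3
  exact le_of_lt (show (K : ℝ) < |x| from hx)

/-- The vectors of the net. -/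
noncomputable def net (D m : ℕ) : Finset (Fin (D + 1) → ℤ) :=
  (Fintype.piFinset fun _ => Finset.Icc (-(m : ℤ)) m).filter fun v => ∃ i, |v i| = m

theorem card_net (D m : ℕ) : (net D m).card ≤ (2 * m + 1) ^ (D + 1) := by
  refine (Finset.card_filter_le _ _).trans ?_
  rw [Fintype.card_piFinset]
  simp only [Int.card_Icc, Finset.prod_const, Finset.card_univ, Fintype.card_fin]
  apply Nat.pow_le_pow_left
  omega

/-- The coefficients of a vector of the net. -/
noncomputable def co {D : ℕ} (m : ℕ) (v : Fin (D + 1) → ℤ) (i : ℕ) : ℝ :=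
  if h : i < D + 1 then (v ⟨i, h⟩ : ℝ) / m else 0

theorem subset_union (D K : ℕ) (hK : 1 ≤ K) (M : ℕ) (hM : (D + 1) * M ≤ K) :
    FK D K ⊆ (⋃ v ∈ net D (8 * (D + 1) * K), win D K M (co (8 * (D + 1) * K) v)) ∪
      ⋃ j : Fin K, {z | (K : ℝ) < |z j|} := by
  set m := 8 * (D + 1) * K with hm
  have hm0 : 0 < m := by positivity
  have hm0' : (0 : ℝ) < m := by exact_mod_cast hm0
  have hKr : (0 : ℝ) < K := by exact_mod_cast hK
  rintro z ⟨R, hR1, ⟨i0, hi0, hR0⟩, hR⟩
  by_cases hz : ∃ j : Fin K, (K : ℝ) < |z j|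
  · right
    obtain ⟨j, hj⟩ := hz
    exact Set.mem_iUnion.2 ⟨j, hj⟩
  · left
    push Not at hz
    set v : Fin (D + 1) → ℤ := fun i => round (R i * m) with hv
    have hv1 : ∀ i : Fin (D + 1), |R i * m - v i| ≤ 1 / 2 := fun i => abs_sub_round _
    have hvm : v ∈ net D m := by
      unfold net
      rw [Finset.mem_filter, Fintype.mem_piFinset]
      constructor
      · intro i
        rw [Finset.mem_Icc]
        have h1 := abs_le.1 (hR1 i (Nat.lt_succ_iff.1 i.2))
        have h2 := abs_le.1 (hv1 i)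
        constructor
        · have h3 : (-(m : ℝ)) - 1 < v i := by nlinarith [h1.1, h2.2]
          have h4 : -(m : ℤ) - 1 < v i := by exact_mod_cast h3
          omega
        · have h3 : (v i : ℝ) < m + 1 := by nlinarith [h1.2, h2.1]
          have h4 : v i < (m : ℤ) + 1 := by exact_mod_cast h3
          omega
      · refine ⟨⟨i0, Nat.lt_succ_of_le hi0⟩, ?_⟩
        rw [hv]
        simp only
        rcases (abs_eq (zero_le_one' ℝ)).1 hR0 with h | h
        · rw [h, one_mul, round_natCast]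
          simp
        · rw [h, neg_one_mul]
          have h5 : (-(m : ℝ)) = ((-(m : ℤ) : ℤ) : ℝ) := by push_cast; ring
          rw [h5, round_intCast]
          simp
    refine Set.mem_iUnion₂.2 ⟨v, hvm, ?_⟩
    intro q hq
    have hle : (D + 1) * q + D < K := by
      have h2 : (D + 1) * q + (D + 1) ≤ (D + 1) * M := by
        calc (D + 1) * q + (D + 1) = (D + 1) * (q + 1) := by ring
          _ ≤ (D + 1) * M := Nat.mul_le_mul_left _ hq
      omega
    have h1 := hR ((D + 1) * q) hle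
    have h2 : ∀ i ∈ range (D + 1), |co m v i * ex z ((D + 1) * q + i) -
        R i * ex z ((D + 1) * q + i)| ≤ 1 / (16 * (D + 1)) := by
      intro i hi
      rw [Finset.mem_range] at hi
      rw [← sub_mul, abs_mul]
      have h3 : |co m v i - R i| ≤ 1 / (2 * m) := by
        unfold co
        rw [dif_pos hi]
        have h4 := hv1 ⟨i, hi⟩
        simp only at h4
        have h5 : (v ⟨i, hi⟩ : ℝ) / m - R i = -(R i * m - v ⟨i, hi⟩) / m := by
          field_simp
          ring
        rw [h5, abs_div, abs_neg, abs_of_pos hm0', div_le_div_iff₀ hm0' (by positivity)]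
        nlinarith
      have h6 : |ex z ((D + 1) * q + i)| ≤ K := by
        unfold ex
        rw [dif_pos (by omega)]
        exact hz _
      calc |co m v i - R i| * |ex z ((D + 1) * q + i)| ≤ 1 / (2 * m) * K :=
            mul_le_mul h3 h6 (abs_nonneg _) (by positivity)
        _ = 1 / (16 * (D + 1)) := by
            rw [hm]
            push_cast
            field_simp
            ring
    have h7 : |∑ i ∈ range (D + 1), co m v i * ex z ((D + 1) * q + i) -
        ∑ i ∈ range (D + 1), R i * ex z ((D + 1) * q + i)| ≤ 1 / 16 := by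
      rw [← Finset.sum_sub_distrib]
      calc |∑ i ∈ range (D + 1), (co m v i * ex z ((D + 1) * q + i) -
          R i * ex z ((D + 1) * q + i))|
          ≤ ∑ i ∈ range (D + 1), |co m v i * ex z ((D + 1) * q + i) -
          R i * ex z ((D + 1) * q + i)| := Finset.abs_sum_le_sum_abs _ _
        _ ≤ ∑ i ∈ range (D + 1), (1 / (16 * (D + 1)) : ℝ) := Finset.sum_le_sum h2
        _ = 1 / 16 := by
            rw [Finset.sum_const, Finset.card_range, nsmul_eq_mul]
            push_cast
            field_simp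
    have h8 := abs_le.1 h7
    have h9 := abs_le.1 h1
    rw [abs_le]
    constructor <;> linarith [h8.1, h8.2, h9.1, h9.2]

theorem co_one {D m : ℕ} (hm : 0 < m) {v : Fin (D + 1) → ℤ} (hv : v ∈ net D m) :
    ∃ i0 ≤ D, |co m v i0| = 1 := by
  unfold net at hv
  rw [Finset.mem_filter] at hv
  obtain ⟨i, hi⟩ := hv.2
  refine ⟨i, Nat.lt_succ_iff.1 i.2, ?_⟩
  unfold co
  rw [dif_pos i.2, abs_div]
  have h1 : |(v i : ℝ)| = m := by exact_mod_cast congrArg (fun x : ℤ => (x : ℝ)) hi
  have h2 : (0 : ℝ) < m := by exact_mod_cast hm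
  rw [Fin.eta, h1, abs_of_pos h2, div_self h2.ne']

theorem measure_FK (D K : ℕ) (hK : 1 ≤ K) (M : ℕ) (hM : (D + 1) * M ≤ K) :
    (Measure.pi fun _ : Fin K => gaussianReal 0 1).real (FK D K) ≤
      (2 * (8 * (D + 1) * K) + 1 : ℝ) ^ (D + 1) * (1 / 4) ^ M + 1 / K := by
  have hK' : (0 : ℝ) < K := by exact_mod_cast hK
  set μ := Measure.pi fun _ : Fin K => gaussianReal 0 1 with hμ
  have h1 : μ.real (FK D K) ≤ μ.real ((⋃ v ∈ net D (8 * (D + 1) * K),
      win D K M (co (8 * (D + 1) * K) v)) ∪ ⋃ j : Fin K, {z | (K : ℝ) < |z j|}) :=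
    measureReal_mono (subset_union D K hK M hM)
  have h2 := measureReal_union_le (μ := μ) (⋃ v ∈ net D (8 * (D + 1) * K),
      win D K M (co (8 * (D + 1) * K) v)) (⋃ j : Fin K, {z | (K : ℝ) < |z j|})
  have h3 := measureReal_biUnion_finset_le (μ := μ) (net D (8 * (D + 1) * K))
    (fun v => win D K M (co (8 * (D + 1) * K) v))
  have h4 := measureReal_iUnion_fintype_le (μ := μ) (fun j : Fin K => {z | (K : ℝ) < |z j|})
  have h5 : ∑ v ∈ net D (8 * (D + 1) * K), μ.real (win D K M (co (8 * (D + 1) * K) v)) ≤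
      (2 * (8 * (D + 1) * K) + 1 : ℝ) ^ (D + 1) * (1 / 4) ^ M := by
    calc ∑ v ∈ net D (8 * (D + 1) * K), μ.real (win D K M (co (8 * (D + 1) * K) v))
        ≤ ∑ _v ∈ net D (8 * (D + 1) * K), ((1 / 4) ^ M : ℝ) := by
          refine Finset.sum_le_sum fun v hv => ?_
          obtain ⟨i0, hi0, h⟩ := co_one (by positivity) hv
          have h6 := measure_win D K M hM (co (8 * (D + 1) * K) v) i0 hi0 h
          have h7 := ENNReal.toReal_mono (by simp) h6
          refine h7.trans_eq ?_
          rw [ENNReal.toReal_pow]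
          norm_num
      _ = ((net D (8 * (D + 1) * K)).card : ℝ) * (1 / 4) ^ M := by
          rw [Finset.sum_const, nsmul_eq_mul]
      _ ≤ _ := by
          apply mul_le_mul_of_nonneg_right _ (by positivity)
          exact_mod_cast card_net D (8 * (D + 1) * K)
  have h8 : ∑ j : Fin K, μ.real {z | (K : ℝ) < |z j|} ≤ 1 / K := by
    calc ∑ j : Fin K, μ.real {z | (K : ℝ) < |z j|} ≤ ∑ _j : Fin K, (1 / (K : ℝ) ^ 2) := by
          refine Finset.sum_le_sum fun j _ => ?_
          have h6 := ENNReal.toReal_mono ENNReal.ofReal_ne_top (measure_tail hK j)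
          rw [ENNReal.toReal_ofReal (by positivity)] at h6
          exact h6
      _ = 1 / K := by
          rw [Finset.sum_const, Finset.card_univ, Fintype.card_fin, nsmul_eq_mul]
          field_simp
  linarith

/-- **Package B.** -/
theorem b : S_B := by
  intro D η hη
  set C : ℝ := 17 * (D + 1) ^ 2 with hC
  have hC1 : 1 ≤ C := by
    have : (0 : ℝ) ≤ D := Nat.cast_nonneg D
    rw [hC]
    nlinarith
  have h1 : Filter.Tendsto (fun n : ℕ => C ^ (D + 1) * 4 * ((n : ℝ) ^ (D + 1) * (1 / 4) ^ n))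
      Filter.atTop (nhds 0) := by
    have := (tendsto_pow_const_mul_const_pow_of_abs_lt_one (D + 1)
      (show |(1 / 4 : ℝ)| < 1 by rw [abs_of_pos] <;> norm_num)).const_mul (C ^ (D + 1) * 4)
    simpa using this
  obtain ⟨N, hN⟩ := Filter.eventually_atTop.1 (h1.eventually_lt_const (half_pos hη))
  obtain ⟨N', hN'⟩ := exists_nat_gt (2 / η)
  refine ⟨max ((D + 1) * (N + 1)) (max N' 1), fun K hK => ?_⟩
  have hK1 : 1 ≤ K := le_trans (le_trans (le_max_right _ _) (le_max_right _ _)) hK
  have hK2 : N' ≤ K := le_trans (le_trans (le_max_left _ _) (le_max_right _ _)) hK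
  have hK3 : (D + 1) * (N + 1) ≤ K := le_trans (le_max_left _ _) hK
  have hKr : (0 : ℝ) < K := by exact_mod_cast hK1
  set M := K / (D + 1) with hM
  have hMK : (D + 1) * M ≤ K := Nat.mul_div_le K (D + 1)
  have hMN : N + 1 ≤ M := by
    rw [hM, Nat.le_div_iff_mul_le (Nat.succ_pos D)]
    linarith [hK3, Nat.mul_comm (D + 1) (N + 1)]
  have hKM : K < (D + 1) * (M + 1) := Nat.lt_mul_div_succ K (Nat.succ_pos D)
  have h2 := measure_FK D K hK1 M hMK
  have h3 : (2 * (8 * (D + 1) * K) + 1 : ℝ) ≤ C * (M + 1) := by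
    have h4 : (K : ℝ) ≤ (D + 1) * (M + 1) := by exact_mod_cast hKM.le
    have h5 : (0 : ℝ) ≤ D := Nat.cast_nonneg D
    have h6 : (0 : ℝ) ≤ M := Nat.cast_nonneg M
    have h7 : (D + 1 : ℝ) * K ≤ (D + 1) * ((D + 1) * (M + 1)) :=
      mul_le_mul_of_nonneg_left h4 (by positivity)
    have h8 : (1 : ℝ) ≤ (D + 1) ^ 2 * (M + 1) := by nlinarith [mul_nonneg h5 h6, sq_nonneg (D : ℝ)]
    rw [hC]
    nlinarith
  have h9 : (2 * (8 * (D + 1) * K) + 1 : ℝ) ^ (D + 1) * (1 / 4) ^ M ≤
      C ^ (D + 1) * 4 * (((M + 1 : ℕ) : ℝ) ^ (D + 1) * (1 / 4) ^ (M + 1)) := by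
    calc (2 * (8 * (D + 1) * K) + 1 : ℝ) ^ (D + 1) * (1 / 4) ^ M
        ≤ (C * (M + 1)) ^ (D + 1) * (1 / 4) ^ M := by
          apply mul_le_mul_of_nonneg_right _ (by positivity)
          exact pow_le_pow_left₀ (by positivity) h3 _
      _ = _ := by
          push_cast
          rw [mul_pow, pow_succ (1 / 4 : ℝ) M]
          ring
  have h10 := hN (M + 1) (by omega)
  have h11 : 1 / (K : ℝ) ≤ η / 2 := by
    have h12 : 2 / η < K := lt_of_lt_of_le hN' (by exact_mod_cast hK2)
    rw [div_lt_iff₀ hη] at h12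
    rw [div_le_div_iff₀ hKr two_pos]
    linarith
  linarith

end Pool.Agent.P8H56.NR
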